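import Mathlib
import Pool.Agent.W2helper68.DL.Stm

/-!
# Job G: the growth of letters
-/

set_option autoImplicit false
set_option linter.unusedSectionVars false

open Filter Finset
open scoped Topology

namespace Pool.Agent.W2helper10.DL

open Pool.Agent.W2helper68.DL

noncomputable section

/-! ### growth classes -/

/-- the scale -/
def sc (β : ℝ) (d : ℕ) (t : ℕ) : ℝ := ((t : ℝ) + 1) ^ d * β ^ t

/-- the growth class -/
def G (L : ℕ → ℝ) (β : ℝ) (d : ℕ) : Prop :=
  ∃ lo hi : ℝ, 0 < lo ∧ 0 < hi ∧ ∀ t : ℕ, lo * sc β d t ≤ L t ∧ L t ≤ hi * sc β d t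

lemma sc_pos {β : ℝ} (hβ : 1 ≤ β) (d t : ℕ) : 0 < sc β d t := by
  unfold sc
  have : 0 < β := by linarith
  positivity

lemma sc_ge_one {β : ℝ} (hβ : 1 ≤ β) (d t : ℕ) : 1 ≤ sc β d t := by
  unfold sc
  have h1 : 1 ≤ ((t : ℝ) + 1) ^ d := one_le_pow₀ (by linarith [Nat.cast_nonneg (α := ℝ) t])
  have h2 : 1 ≤ β ^ t := one_le_pow₀ hβ
  exact one_le_mul_of_one_le_of_one_le h1 h2

/-- polynomials times decaying exponentials are bounded -/
lemma bdd_aux {q : ℝ} (hq0 : 0 < q) (hq1 : q < 1) (d : ℕ) :
    ∃ K : ℝ, 0 < K ∧ ∀ t : ℕ, ((t : ℝ) + 1) ^ d * q ^ t ≤ K := by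
  have h1 := tendsto_pow_const_mul_const_pow_of_abs_lt_one d (r := q)
    (by rw [abs_of_pos hq0]; exact hq1)
  obtain ⟨K, hK⟩ := h1.bddAbove_range
  refine ⟨|K| / q + 1, by positivity, fun t => ?_⟩
  have h2 := hK ⟨t + 1, rfl⟩
  simp only at h2
  push_cast at h2
  have h3 : ((t : ℝ) + 1) ^ d * q ^ t = ((t : ℝ) + 1) ^ d * q ^ (t + 1) / q := by
    rw [pow_succ]; field_simp
  rw [h3]
  have h4 := div_le_div_of_nonneg_right (h2.trans (le_abs_self K)) hq0.le
  linarith

/-- the lexicographic order of the scales -/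
lemma sc_le {β β' : ℝ} {d d' : ℕ} (hβ : 1 ≤ β) (h : β < β' ∨ (β = β' ∧ d ≤ d')) :
    ∃ K : ℝ, 0 < K ∧ ∀ t, sc β d t ≤ K * sc β' d' t := by
  rcases h with h | ⟨h, h'⟩
  · have hβ0 : 0 < β := by linarith
    have hβ' : 0 < β' := by linarith
    obtain ⟨K, hK, hb⟩ := bdd_aux (q := β / β') (by positivity) (by rwa [div_lt_one hβ']) d
    refine ⟨K, hK, fun t => ?_⟩
    have h1 := hb t
    unfold sc
    have h2 : 1 ≤ ((t : ℝ) + 1) ^ d' := one_le_pow₀ (by linarith [Nat.cast_nonneg (α := ℝ) t])
    have h3 : ((t : ℝ) + 1) ^ d * β ^ t = (((t : ℝ) + 1) ^ d * (β / β') ^ t) * β' ^ t := by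
      rw [div_pow]; field_simp
    rw [h3]
    have h4 := mul_le_mul_of_nonneg_right h1 (pow_pos hβ' t).le
    have h5 : K * β' ^ t ≤ K * (((t : ℝ) + 1) ^ d' * β' ^ t) := by
      refine mul_le_mul_of_nonneg_left ?_ hK.le
      exact le_mul_of_one_le_left (pow_pos hβ' t).le h2
    exact h4.trans h5
  · subst h
    refine ⟨1, one_pos, fun t => ?_⟩
    unfold sc
    rw [one_mul]
    refine mul_le_mul_of_nonneg_right ?_ (pow_nonneg (by linarith) t)
    exact pow_le_pow_right₀ (by linarith [Nat.cast_nonneg (α := ℝ) t]) h'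

/-- the sum of two sequences -/
lemma G_add {L L' : ℕ → ℝ} {β β' : ℝ} {d d' : ℕ} (hβ : 1 ≤ β) (hβ' : 1 ≤ β') (h : G L β d)
    (h' : G L' β' d') : ∃ (b : ℝ) (e : ℕ), 1 ≤ b ∧ G (fun t => L t + L' t) b e := by
  have key : ∀ {L L' : ℕ → ℝ} {β β' : ℝ} {d d' : ℕ}, 1 ≤ β → 1 ≤ β' → G L β d → G L' β' d' →
      (β < β' ∨ (β = β' ∧ d ≤ d')) → G (fun t => L t + L' t) β' d' := by
    rintro L L' β β' d d' hβ hβ' ⟨lo, hi, hlo, hhi, hb⟩ ⟨lo', hi', hlo', hhi', hb'⟩ hlex
    obtain ⟨K, hK, hk⟩ := sc_le hβ hlex
    refine ⟨lo', hi * K + hi', hlo', by positivity, fun t => ⟨?_, ?_⟩⟩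
    · have h1 := (hb t).1
      have h2 := (hb' t).1
      have h3 : 0 < lo * sc β d t := mul_pos hlo (sc_pos hβ d t)
      linarith
    · have h1 := (hb t).2
      have h2 := (hb' t).2
      have h3 := mul_le_mul_of_nonneg_left (hk t) hhi.le
      calc L t + L' t ≤ hi * (K * sc β' d' t) + hi' * sc β' d' t := by linarith
        _ = _ := by ring
  rcases lt_trichotomy β β' with hlt | heq | hgt
  · exact ⟨β', d', hβ', key hβ hβ' h h' (Or.inl hlt)⟩
  · rcases le_total d d' with hd | hd
    · exact ⟨β', d', hβ', key hβ hβ' h h' (Or.inr ⟨heq, hd⟩)⟩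
    · refine ⟨β, d, hβ, ?_⟩
      have := key hβ' hβ h' h (Or.inr ⟨heq.symm, hd⟩)
      simpa only [add_comm] using this
  · refine ⟨β, d, hβ, ?_⟩
    have := key hβ' hβ h' h (Or.inl hgt)
    simpa only [add_comm] using this

lemma G_congr {L L' : ℕ → ℝ} {β : ℝ} {d : ℕ} (h : G L β d) {a b : ℝ} (ha : 0 < a) (hb : 0 < b)
    (hlo : ∀ t, a * L t ≤ L' t) (hhi : ∀ t, L' t ≤ b * L t) : G L' β d := by
  obtain ⟨lo, hi, h1, h2, h3⟩ := h
  refine ⟨a * lo, b * hi, by positivity, by positivity, fun t => ⟨?_, ?_⟩⟩
  · have := mul_le_mul_of_nonneg_left (h3 t).1 ha.le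
    calc a * lo * sc β d t = a * (lo * sc β d t) := by ring
      _ ≤ _ := this.trans (hlo t)
  · have := mul_le_mul_of_nonneg_left (h3 t).2 hb.le
    calc L' t ≤ b * L t := hhi t
      _ ≤ b * (hi * sc β d t) := this
      _ = _ := by ring

/-- finite sums -/
lemma G_sum {ι : Type} (S : Finset ι) (hS : S.Nonempty) {L : ι → ℕ → ℝ}
    (h : ∀ i ∈ S, ∃ (β : ℝ) (d : ℕ), 1 ≤ β ∧ G (L i) β d) :
    ∃ (β : ℝ) (d : ℕ), 1 ≤ β ∧ G (fun t => ∑ i ∈ S, L i t) β d := by
  classical
  induction hS using Finset.Nonempty.cons_induction with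
  | singleton a =>
    obtain ⟨β, d, h1, h2⟩ := h a (by simp)
    refine ⟨β, d, h1, ?_⟩
    simpa using h2
  | cons a S ha hS ih =>
    obtain ⟨β, d, h1, h2⟩ := h a (by simp)
    obtain ⟨β', d', h1', h2'⟩ := ih fun i hi => h i (by simp [hi])
    obtain ⟨b, e, h3, h4⟩ := G_add h1 h1' h2 h2'
    refine ⟨b, e, h3, ?_⟩
    have e1 : (fun t => ∑ i ∈ Finset.cons a S ha, L i t) =
        fun t => L a t + ∑ i ∈ S, L i t := by
      funext t
      rw [Finset.sum_cons]
    rw [e1]
    exact h4

/-- the shift -/
lemma G_shift {L : ℕ → ℝ} {β : ℝ} {d : ℕ} (hβ : 1 ≤ β) (h : G (fun t => L (t + 1)) β d)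
    (h0 : 0 < L 0) : G L β d := by
  obtain ⟨lo, hi, hlo, hhi, hb⟩ := h
  have hβ0 : 0 < β := by linarith
  refine ⟨min (L 0) (lo / (2 ^ d * β)), max (L 0) hi, lt_min h0 (by positivity),
    lt_max_of_lt_left h0, fun t => ?_⟩
  cases t with
  | zero =>
    have e : sc β d 0 = 1 := by unfold sc; simp
    rw [e, mul_one, mul_one]
    exact ⟨min_le_left _ _, le_max_left _ _⟩
  | succ t =>
    have hs := sc_pos hβ d t
    have h1 : sc β d t ≤ sc β d (t + 1) := by
      unfold sc
      refine mul_le_mul ?_ (pow_le_pow_right₀ hβ (Nat.le_succ t)) (by positivity) (by positivity)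
      refine pow_le_pow_left₀ (by positivity) ?_ d
      push_cast
      linarith
    have h2 : sc β d (t + 1) ≤ 2 ^ d * β * sc β d t := by
      unfold sc
      have h3 : (((t + 1 : ℕ) : ℝ) + 1) ^ d ≤ 2 ^ d * ((t : ℝ) + 1) ^ d := by
        rw [← mul_pow]
        refine pow_le_pow_left₀ (by positivity) ?_ d
        push_cast
        linarith [Nat.cast_nonneg (α := ℝ) t]
      calc (((t + 1 : ℕ) : ℝ) + 1) ^ d * β ^ (t + 1) ≤
            2 ^ d * ((t : ℝ) + 1) ^ d * β ^ (t + 1) :=
              mul_le_mul_of_nonneg_right h3 (by positivity)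
        _ = _ := by rw [pow_succ]; ring
    have h4 := hb t
    constructor
    · calc min (L 0) (lo / (2 ^ d * β)) * sc β d (t + 1) ≤
          lo / (2 ^ d * β) * sc β d (t + 1) :=
            mul_le_mul_of_nonneg_right (min_le_right _ _) (sc_pos hβ _ _).le
        _ ≤ lo / (2 ^ d * β) * (2 ^ d * β * sc β d t) :=
            mul_le_mul_of_nonneg_left h2 (by positivity)
        _ = lo * sc β d t := by field_simp
        _ ≤ _ := h4.1
    · calc L (t + 1) ≤ hi * sc β d t := h4.2
        _ ≤ max (L 0) hi * sc β d (t + 1) :=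
            mul_le_mul (le_max_right _ _) h1 hs.le (le_max_of_le_left h0.le)

/-- the convolution with an exponential -/
lemma G_conv {lam β : ℝ} {d : ℕ} (hl : 1 ≤ lam) (hβ : 1 ≤ β) :
    ∃ (b : ℝ) (e : ℕ), 1 ≤ b ∧
      G (fun t => lam ^ t + ∑ s ∈ range t, lam ^ s * sc β d (t - 1 - s)) b e := by
  have hl0 : 0 < lam := by linarith
  have hβ0 : 0 < β := by linarith
  have hsum0 : ∀ t, 0 ≤ ∑ s ∈ range t, lam ^ s * sc β d (t - 1 - s) := fun t =>
    Finset.sum_nonneg fun s _ => mul_nonneg (by positivity) (sc_pos hβ _ _).le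
  rcases lt_trichotomy lam β with hlt | heq | hgt
  · -- β wins
    refine ⟨β, d, hβ, ?_⟩
    have hq0 : 0 < lam / β := by positivity
    have hq1 : lam / β < 1 := by rwa [div_lt_one hβ0]
    refine ⟨1 / (2 ^ d * β), 1 + (1 - lam / β)⁻¹, by positivity, by
      have : 0 < (1 - lam / β)⁻¹ := inv_pos.2 (by linarith)
      positivity, fun t => ⟨?_, ?_⟩⟩
    · cases t with
      | zero =>
        have e : sc β d 0 = 1 := by unfold sc; simp
        rw [e, mul_one]
        simp only [pow_zero, range_zero, sum_empty, add_zero]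
        rw [div_le_one (by positivity)]
        exact one_le_mul_of_one_le_of_one_le (one_le_pow₀ (by norm_num)) hβ
      | succ t =>
        have h1 : sc β d t ≤ ∑ s ∈ range (t + 1), lam ^ s * sc β d (t + 1 - 1 - s) := by
          have := Finset.single_le_sum (f := fun s => lam ^ s * sc β d (t + 1 - 1 - s))
            (fun s _ => mul_nonneg (by positivity) (sc_pos hβ _ _).le)
            (Finset.mem_range.2 (Nat.succ_pos t))
          simpa using this
        have h2 : sc β d (t + 1) ≤ 2 ^ d * β * sc β d t := by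
          unfold sc
          have h3 : (((t + 1 : ℕ) : ℝ) + 1) ^ d ≤ 2 ^ d * ((t : ℝ) + 1) ^ d := by
            rw [← mul_pow]
            refine pow_le_pow_left₀ (by positivity) ?_ d
            push_cast
            linarith [Nat.cast_nonneg (α := ℝ) t]
          calc (((t + 1 : ℕ) : ℝ) + 1) ^ d * β ^ (t + 1) ≤
                2 ^ d * ((t : ℝ) + 1) ^ d * β ^ (t + 1) :=
                  mul_le_mul_of_nonneg_right h3 (by positivity)
            _ = _ := by rw [pow_succ]; ring
        have h5 : 1 / (2 ^ d * β) * sc β d (t + 1) ≤ sc β d t := by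
          rw [one_div, inv_mul_le_iff₀ (by positivity)]
          exact h2
        have h6 : 0 < lam ^ (t + 1) := by positivity
        linarith
    · have h1 : lam ^ t ≤ 1 * sc β d t := by
        rw [one_mul]
        unfold sc
        have h2 : lam ^ t ≤ β ^ t := pow_le_pow_left₀ hl0.le hlt.le t
        have h3 : 1 ≤ ((t : ℝ) + 1) ^ d := one_le_pow₀ (by linarith [Nat.cast_nonneg (α := ℝ) t])
        exact h2.trans (le_mul_of_one_le_left (by positivity) h3)
      have h2 : ∑ s ∈ range t, lam ^ s * sc β d (t - 1 - s) ≤ (1 - lam / β)⁻¹ * sc β d t := by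
        have h3 : ∀ s ∈ range t, lam ^ s * sc β d (t - 1 - s) ≤ (lam / β) ^ s * sc β d t := by
          intro s hs
          rw [Finset.mem_range] at hs
          unfold sc
          have h4 : (((t - 1 - s : ℕ) : ℝ) + 1) ^ d ≤ ((t : ℝ) + 1) ^ d := by
            refine pow_le_pow_left₀ (by positivity) ?_ d
            have : ((t - 1 - s : ℕ) : ℝ) ≤ t := by exact_mod_cast (by omega : t - 1 - s ≤ t)
            linarith
          have h5 : lam ^ s * β ^ (t - 1 - s) ≤ (lam / β) ^ s * β ^ t := by
            rw [div_pow]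
            have e : lam ^ s / β ^ s * β ^ t = lam ^ s * β ^ (t - s) := by
              have : β ^ t = β ^ s * β ^ (t - s) := by rw [← pow_add]; congr 1; omega
              rw [this]
              field_simp
            rw [e]
            exact mul_le_mul_of_nonneg_left (pow_le_pow_right₀ hβ (by omega)) (by positivity)
          calc lam ^ s * ((((t - 1 - s : ℕ) : ℝ) + 1) ^ d * β ^ (t - 1 - s)) =
                (((t - 1 - s : ℕ) : ℝ) + 1) ^ d * (lam ^ s * β ^ (t - 1 - s)) := by ring
            _ ≤ ((t : ℝ) + 1) ^ d * ((lam / β) ^ s * β ^ t) :=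
                mul_le_mul h4 h5 (by positivity) (by positivity)
            _ = _ := by ring
        refine (Finset.sum_le_sum h3).trans ?_
        rw [← Finset.sum_mul]
        refine mul_le_mul_of_nonneg_right ?_ (sc_pos hβ _ _).le
        have h6 := (summable_geometric_of_lt_one hq0.le hq1).sum_le_tsum (range t)
          fun i _ => by positivity
        rwa [tsum_geometric_of_lt_one hq0.le hq1] at h6
      rw [add_mul]
      exact add_le_add h1 h2
  · -- resonance
    subst heq
    refine ⟨lam, d + 1, hl, ?_⟩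
    have hterm : ∀ t, ∑ s ∈ range t, lam ^ s * sc lam d (t - 1 - s) =
        lam⁻¹ * lam ^ t * ∑ j ∈ range t, ((j : ℝ) + 1) ^ d := by
      intro t
      rw [Finset.mul_sum, ← Finset.sum_range_reflect (fun j => lam⁻¹ * lam ^ t * ((j : ℝ) + 1) ^ d)]
      refine Finset.sum_congr rfl fun s hs => ?_
      rw [Finset.mem_range] at hs
      unfold sc
      have e : lam ^ t = lam * (lam ^ s * lam ^ (t - 1 - s)) := by
        rw [← pow_add, ← pow_succ']; congr 1; omega
      rw [e]
      field_simp
    have hS : ∀ t : ℕ, 1 / (2 * 2 ^ (d + 1)) * ((t : ℝ) + 1) ^ (d + 1) ≤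
        1 + ∑ j ∈ range t, ((j : ℝ) + 1) ^ d := by
      intro t
      -- the terms with `j ≥ t / 2` are at least `((t+1)/2)^d`
      have h1 : ∀ j ∈ Finset.Ico (t / 2) t, (((t : ℝ) + 1) / 2) ^ d ≤ ((j : ℝ) + 1) ^ d := by
        intro j hj
        rw [Finset.mem_Ico] at hj
        refine pow_le_pow_left₀ (by positivity) ?_ d
        have : (t : ℝ) ≤ 2 * j + 1 := by exact_mod_cast (by omega : t ≤ 2 * j + 1)
        linarith
      have h2 := Finset.sum_le_sum h1
      rw [Finset.sum_const, Nat.card_Ico, nsmul_eq_mul] at h2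
      have h3 : ∑ j ∈ Finset.Ico (t / 2) t, ((j : ℝ) + 1) ^ d ≤ ∑ j ∈ range t, ((j : ℝ) + 1) ^ d :=
        Finset.sum_le_sum_of_subset_of_nonneg
          (fun j hj => by rw [Finset.mem_Ico] at hj; rw [Finset.mem_range]; exact hj.2)
          fun j _ _ => by positivity
      have h4 : (t : ℝ) / 2 ≤ ((t - t / 2 : ℕ) : ℝ) := by
        have : (t : ℝ) ≤ 2 * ((t - t / 2 : ℕ) : ℝ) := by exact_mod_cast (by omega : t ≤ 2 * (t - t / 2))
        linarith
      have hp : 0 ≤ (((t : ℝ) + 1) / 2) ^ d := by positivity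
      have h5 := mul_le_mul_of_nonneg_right h4 hp
      rcases Nat.eq_zero_or_pos t with ht | ht
      · subst ht
        simp only [Nat.cast_zero, zero_add, one_pow, mul_one, range_zero, sum_empty, add_zero]
        rw [div_le_one (by positivity)]
        have : (1 : ℝ) ≤ 2 ^ (d + 1) := one_le_pow₀ (by norm_num)
        linarith
      · have ht1 : (1 : ℝ) ≤ t := by exact_mod_cast ht
        have h6 : 1 / (2 * 2 ^ (d + 1)) * ((t : ℝ) + 1) ^ (d + 1) =
            ((t : ℝ) + 1) / 4 * (((t : ℝ) + 1) / 2) ^ d := by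
          rw [div_pow, pow_succ, pow_succ]
          field_simp
          ring
        rw [h6]
        have h7 : ((t : ℝ) + 1) / 4 * (((t : ℝ) + 1) / 2) ^ d ≤
            (t : ℝ) / 2 * (((t : ℝ) + 1) / 2) ^ d :=
          mul_le_mul_of_nonneg_right (by linarith) hp
        linarith
    have hS2 : ∀ t : ℕ, 1 + ∑ j ∈ range t, ((j : ℝ) + 1) ^ d ≤ ((t : ℝ) + 1) ^ (d + 1) := by
      intro t
      have h1 : ∀ j ∈ range t, ((j : ℝ) + 1) ^ d ≤ ((t : ℝ) + 1) ^ d := by
        intro j hj
        rw [Finset.mem_range] at hj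
        refine pow_le_pow_left₀ (by positivity) ?_ d
        have : (j : ℝ) ≤ t := by exact_mod_cast hj.le
        linarith
      have h2 := Finset.sum_le_sum h1
      rw [Finset.sum_const, Finset.card_range, nsmul_eq_mul] at h2
      have h3 : 1 ≤ ((t : ℝ) + 1) ^ d := one_le_pow₀ (by linarith [Nat.cast_nonneg (α := ℝ) t])
      rw [pow_succ]
      linarith
    refine ⟨lam⁻¹ * (1 / (2 * 2 ^ (d + 1))), 1, by positivity, one_pos, fun t => ?_⟩
    simp only [hterm]
    have hT : 0 ≤ ∑ j ∈ range t, ((j : ℝ) + 1) ^ d := Finset.sum_nonneg fun j _ => by positivity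
    have hlt : 0 < lam ^ t := by positivity
    have hli : lam⁻¹ ≤ 1 := inv_le_one_of_one_le₀ hl
    constructor
    · have h1 := mul_le_mul_of_nonneg_left (hS t) (by positivity : 0 ≤ lam⁻¹ * lam ^ t)
      unfold sc
      have h2 : lam⁻¹ * lam ^ t ≤ lam ^ t := by nlinarith
      calc lam⁻¹ * (1 / (2 * 2 ^ (d + 1))) * (((t : ℝ) + 1) ^ (d + 1) * lam ^ t) =
            lam⁻¹ * lam ^ t * (1 / (2 * 2 ^ (d + 1)) * ((t : ℝ) + 1) ^ (d + 1)) := by ring
        _ ≤ lam⁻¹ * lam ^ t * (1 + ∑ j ∈ range t, ((j : ℝ) + 1) ^ d) := h1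
        _ = lam⁻¹ * lam ^ t + lam⁻¹ * lam ^ t * ∑ j ∈ range t, ((j : ℝ) + 1) ^ d := by ring
        _ ≤ _ := by linarith
    · have h1 := mul_le_mul_of_nonneg_left (hS2 t) hlt.le
      have h2 : lam⁻¹ * lam ^ t * ∑ j ∈ range t, ((j : ℝ) + 1) ^ d ≤
          lam ^ t * ∑ j ∈ range t, ((j : ℝ) + 1) ^ d :=
        mul_le_mul_of_nonneg_right (by nlinarith) hT
      unfold sc
      calc lam ^ t + lam⁻¹ * lam ^ t * ∑ j ∈ range t, ((j : ℝ) + 1) ^ d ≤
            lam ^ t * (1 + ∑ j ∈ range t, ((j : ℝ) + 1) ^ d) := by linarith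
        _ ≤ lam ^ t * ((t : ℝ) + 1) ^ (d + 1) := h1
        _ = _ := by ring
  · -- lam wins
    refine ⟨lam, 0, hl, ?_⟩
    have hq0 : 0 < β / lam := by positivity
    have hq1 : β / lam < 1 := by rwa [div_lt_one hl0]
    have hsm : Summable fun j : ℕ => ((j : ℝ) + 1) ^ d * (β / lam) ^ j := by
      have h1 := summable_pow_mul_geometric_of_norm_lt_one d (r := β / lam)
        (by rw [Real.norm_eq_abs, abs_of_pos hq0]; exact hq1)
      have h2 := ((summable_nat_add_iff 1).2 h1).mul_right (β / lam)⁻¹
      refine h2.congr fun j => ?_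
      push_cast
      rw [pow_succ]
      field_simp
    obtain ⟨S, hS⟩ : ∃ S, S = ∑' j : ℕ, ((j : ℝ) + 1) ^ d * (β / lam) ^ j := ⟨_, rfl⟩
    have hS0 : 0 ≤ S := by rw [hS]; exact tsum_nonneg fun j => by positivity
    refine ⟨1, 1 + S, one_pos, by positivity, fun t => ⟨?_, ?_⟩⟩
    · unfold sc at *
      simp only [pow_zero, one_mul]
      have := hsum0 t
      linarith
    · have h1 : ∑ s ∈ range t, lam ^ s * sc β d (t - 1 - s) ≤ S * lam ^ t := by
        have h2 : ∑ s ∈ range t, lam ^ s * sc β d (t - 1 - s) =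
            lam⁻¹ * lam ^ t * ∑ j ∈ range t, ((j : ℝ) + 1) ^ d * (β / lam) ^ j := by
          rw [Finset.mul_sum, ← Finset.sum_range_reflect
            (fun j => lam⁻¹ * lam ^ t * (((j : ℝ) + 1) ^ d * (β / lam) ^ j))]
          refine Finset.sum_congr rfl fun s hs => ?_
          rw [Finset.mem_range] at hs
          unfold sc
          have e : lam ^ t = lam * (lam ^ s * lam ^ (t - 1 - s)) := by
            rw [← pow_add, ← pow_succ']; congr 1; omega
          rw [e, div_pow]
          field_simp
        rw [h2]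
        have h3 := hsm.sum_le_tsum (range t) fun i _ => by positivity
        rw [← hS] at h3
        have hli : lam⁻¹ ≤ 1 := inv_le_one_of_one_le₀ hl
        have hlt : 0 < lam ^ t := by positivity
        calc lam⁻¹ * lam ^ t * ∑ j ∈ range t, ((j : ℝ) + 1) ^ d * (β / lam) ^ j ≤
              lam⁻¹ * lam ^ t * S := mul_le_mul_of_nonneg_left h3 (by positivity)
          _ ≤ 1 * lam ^ t * S := by gcongr
          _ = _ := by ring
      unfold sc at *
      simp only [pow_zero, one_mul]
      linarith

/-! ### sequences which are sub- and supermultiplicative up to a constant -/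

lemma fekete {a : ℕ → ℝ} (ha : ∀ t, 1 ≤ a t) {R : ℝ} (hR : 1 ≤ R)
    (h1 : ∀ s t, a (s + t) ≤ R * (a s * a t)) (h2 : ∀ s t, a s * a t ≤ R * a (s + t)) :
    ∃ lam : ℝ, 1 ≤ lam ∧ ∀ t, lam ^ t / R ≤ a t ∧ a t ≤ R * lam ^ t := by
  have hR0 : 0 < R := by linarith
  have hlR : 0 ≤ Real.log R := Real.log_nonneg hR
  have ha0 : ∀ t, 0 < a t := fun t => by linarith [ha t]
  have hla : ∀ t, 0 ≤ Real.log (a t) := fun t => Real.log_nonneg (ha t)
  obtain ⟨u, hu⟩ : ∃ u : ℕ → ℝ, u = fun t => Real.log R + Real.log (a t) := ⟨_, rfl⟩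
  obtain ⟨v, hv⟩ : ∃ v : ℕ → ℝ, v = fun t => Real.log R - Real.log (a t) := ⟨_, rfl⟩
  have hut : ∀ t, u t = Real.log R + Real.log (a t) := fun t => by rw [hu]
  have hvt : ∀ t, v t = Real.log R - Real.log (a t) := fun t => by rw [hv]
  have su : Subadditive u := by
    intro s t
    rw [hut, hut, hut]
    have := Real.log_le_log (ha0 _) (h1 s t)
    rw [Real.log_mul hR0.ne' (mul_pos (ha0 s) (ha0 t)).ne', Real.log_mul (ha0 s).ne'
      (ha0 t).ne'] at this
    linarith
  have sv : Subadditive v := by
    intro s t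
    rw [hvt, hvt, hvt]
    have := Real.log_le_log (mul_pos (ha0 s) (ha0 t)) (h2 s t)
    rw [Real.log_mul hR0.ne' (ha0 _).ne', Real.log_mul (ha0 s).ne'
      (ha0 t).ne'] at this
    linarith
  have bu : BddBelow (Set.range fun n : ℕ => u n / n) := by
    refine ⟨0, ?_⟩
    rintro _ ⟨n, rfl⟩
    refine div_nonneg ?_ (Nat.cast_nonneg n)
    rw [hut]
    have := hla n
    linarith
  have lin : ∀ n : ℕ, Real.log (a (n + 1)) ≤ (n + 1 : ℕ) * (Real.log R + Real.log (a 1)) := by
    intro n
    induction n with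
    | zero => simp; linarith
    | succ n ih =>
      have h3 := Real.log_le_log (ha0 _) (h1 (n + 1) 1)
      rw [Real.log_mul hR0.ne' (mul_pos (ha0 _) (ha0 _)).ne', Real.log_mul (ha0 _).ne'
        (ha0 _).ne'] at h3
      push_cast at ih ⊢
      linarith
  have bv : BddBelow (Set.range fun n : ℕ => v n / n) := by
    refine ⟨-(Real.log R + Real.log (a 1)), ?_⟩
    rintro _ ⟨n, rfl⟩
    simp only
    cases n with
    | zero =>
      simp only [Nat.cast_zero, div_zero]
      have := hla 1
      linarith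
    | succ n =>
      rw [le_div_iff₀ (by positivity), hvt]
      have := lin n
      linarith
  have lu := su.tendsto_lim bu
  have lv := sv.tendsto_lim bv
  have hsum : su.lim + sv.lim = 0 := by
    have h3 := lu.add lv
    have h4 : Tendsto (fun n : ℕ => 2 * Real.log R * ((n : ℝ))⁻¹) atTop
        (𝓝 (2 * Real.log R * 0)) :=
      (tendsto_inv_atTop_nhds_zero_nat (𝕜 := ℝ)).const_mul _
    rw [mul_zero] at h4
    refine tendsto_nhds_unique h3 (h4.congr fun n => ?_)
    rw [hut, hvt]
    ring
  obtain ⟨l, hl⟩ : ∃ l, l = su.lim := ⟨_, rfl⟩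
  have hl0 : 0 ≤ l := by
    rw [hl]
    refine ge_of_tendsto' lu fun n => div_nonneg ?_ (Nat.cast_nonneg n)
    rw [hut]
    have := hla n
    linarith
  refine ⟨Real.exp l, Real.one_le_exp hl0, fun t => ?_⟩
  rw [← Real.exp_nat_mul]
  cases t with
  | zero =>
    simp only [Nat.cast_zero, zero_mul, Real.exp_zero, mul_one]
    have h3 := h2 0 0
    simp only [add_zero] at h3
    have h4 : a 0 ≤ R := by
      have : a 0 * a 0 ≤ a 0 * R := by linarith
      exact le_of_mul_le_mul_left this (ha0 0)
    refine ⟨?_, h4⟩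
    rw [div_le_iff₀ hR0]
    have := ha 0
    nlinarith
  | succ t =>
    have h3 := su.lim_le_div bu (n := t + 1) (Nat.succ_ne_zero t)
    have h4 := sv.lim_le_div bv (n := t + 1) (Nat.succ_ne_zero t)
    rw [le_div_iff₀ (by positivity), ← hl, hut] at h3
    have h5 : sv.lim = -l := by linarith
    rw [le_div_iff₀ (by positivity), h5, hvt] at h4
    constructor
    · rw [div_le_iff₀ hR0]
      have h6 : (t + 1 : ℕ) * l ≤ Real.log (a (t + 1) * R) := by
        rw [Real.log_mul (ha0 _).ne' hR0.ne']
        linarith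
      exact (Real.le_log_iff_exp_le (mul_pos (ha0 _) hR0)).1 h6
    · have h6 : Real.log (a (t + 1)) ≤ Real.log (R * Real.exp ((t + 1 : ℕ) * l)) := by
        rw [Real.log_mul hR0.ne' (Real.exp_pos _).ne', Real.log_exp]
        linarith
      exact (Real.log_le_log_iff (ha0 _) (by positivity)).1 h6

/-! ### matrices -/

section mat

variable {A : Type} [Fintype A] [DecidableEq A] {M : A → A → ℕ}

lemma len_pos (hM : ∀ b, ∃ c, 0 < M b c) (t : ℕ) (b : A) : 0 < len M t b := by
  induction t generalizing b with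
  | zero => exact Nat.one_pos
  | succ t ih =>
    obtain ⟨c, hc⟩ := hM b
    have h1 := Finset.single_le_sum (f := fun c => M b c * len M t c) (fun _ _ => Nat.zero_le _)
      (Finset.mem_univ c)
    exact lt_of_lt_of_le (Nat.mul_pos hc (ih c)) h1

lemma len_mono (hM : ∀ b, ∃ c, 0 < M b c) (t : ℕ) (b : A) : len M t b ≤ len M (t + 1) b := by
  induction t generalizing b with
  | zero => exact len_pos hM 1 b
  | succ t ih =>
    show ∑ c, M b c * len M t c ≤ ∑ c, M b c * len M (t + 1) c
    exact Finset.sum_le_sum fun c _ => Nat.mul_le_mul_left _ (ih c)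

lemma len_up {R : ℕ} (hR : ∀ b, ∑ c, M b c ≤ R) (t : ℕ) (b : A) :
    len M (t + 1) b ≤ R * len M t b := by
  induction t generalizing b with
  | zero =>
    show ∑ c, M b c * 1 ≤ R * 1
    simpa using hR b
  | succ t ih =>
    show ∑ c, M b c * len M (t + 1) c ≤ R * ∑ c, M b c * len M t c
    rw [Finset.mul_sum]
    refine Finset.sum_le_sum fun c _ => ?_
    calc M b c * len M (t + 1) c ≤ M b c * (R * len M t c) := Nat.mul_le_mul_left _ (ih c)
      _ = _ := by ring

/-- the successors -/
def succs (M : A → A → ℕ) (b : A) : Finset A := univ.filter fun c => 0 < M b c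

/-- the measure of the induction -/
def meas (M : A → A → ℕ) (b : A) : ℕ := 2 * (succs M b).card + if 0 < M b b then 0 else 1

lemma sum_succs (M : A → A → ℕ) (b : A) (f : A → ℕ) :
    ∑ c, M b c * f c = ∑ c ∈ succs M b, M b c * f c := by
  unfold succs
  rw [Finset.sum_filter]
  refine Finset.sum_congr rfl fun c _ => ?_
  split_ifs with h
  · rfl
  · have : M b c = 0 := by omega
    rw [this, zero_mul]

/-- a natural multiple -/
lemma G_smul {L : ℕ → ℝ} {β : ℝ} {d : ℕ} (h : G L β d) {m : ℝ} (hm : 0 < m) :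
    G (fun t => m * L t) β d :=
  G_congr h hm hm (fun _ => le_rfl) fun _ => le_rfl

theorem core (M : A → A → ℕ) (hM : ∀ b, ∃ c, 0 < M b c)
    (hP : ∀ b c, 0 < M b c ↔ ∃ e, 0 < M b e ∧ 0 < M e c) :
    ∀ (k : ℕ) (b : A), meas M b ≤ k → ∃ (β : ℝ) (d : ℕ), 1 ≤ β ∧
      G (fun t => (len M t b : ℝ)) β d := by
  have htr : ∀ {b c e}, 0 < M b c → 0 < M c e → 0 < M b e := fun {b c e} h1 h2 =>
    (hP b e).2 ⟨c, h1, h2⟩
  have hsub : ∀ {b c}, 0 < M b c → succs M c ⊆ succs M b := fun {b c} h e he => by
    unfold succs at he ⊢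
    rw [Finset.mem_filter] at he ⊢
    exact ⟨Finset.mem_univ _, htr h he.2⟩
  have hmem : ∀ {b c}, c ∈ succs M b ↔ 0 < M b c := fun {b c} => by
    unfold succs
    simp
  intro k
  induction k with
  | zero =>
    intro b hb
    exfalso
    obtain ⟨c, hc⟩ := hM b
    have : 0 < (succs M b).card := Finset.card_pos.2 ⟨c, hmem.2 hc⟩
    unfold meas at hb
    omega
  | succ k ih =>
    intro b hb
    by_cases hbb : 0 < M b b
    · -- recurrent letters
      obtain ⟨C, hC⟩ : ∃ C : Finset A, C = univ.filter fun c => 0 < M b c ∧ 0 < M c b := ⟨_, rfl⟩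
      obtain ⟨Out, hOut⟩ : ∃ O : Finset A, O = univ.filter fun c => 0 < M b c ∧ ¬ 0 < M c b :=
        ⟨_, rfl⟩
      have mC : ∀ c, c ∈ C ↔ 0 < M b c ∧ 0 < M c b := fun c => by rw [hC]; simp
      have mO : ∀ c, c ∈ Out ↔ 0 < M b c ∧ ¬ 0 < M c b := fun c => by rw [hOut]; simp
      have hbC : b ∈ C := (mC b).2 ⟨hbb, hbb⟩
      have hdisj : Disjoint C Out := by
        rw [Finset.disjoint_left]
        intro c h1 h2
        exact ((mO c).1 h2).2 ((mC c).1 h1).2
      have hCC : ∀ e ∈ C, ∀ e' ∈ C, 0 < M e e' := fun e he e' he' =>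
        htr ((mC e).1 he).2 ((mC e').1 he').1
      have hCO : ∀ e ∈ C, ∀ f ∈ Out, 0 < M e f := fun e he f hf =>
        htr ((mC e).1 he).2 ((mO f).1 hf).1
      have hsucc : ∀ e ∈ C, succs M e = C ∪ Out := by
        intro e he
        ext c
        rw [hmem, Finset.mem_union]
        constructor
        · intro h
          have h1 := htr ((mC e).1 he).1 h
          by_cases h2 : 0 < M c b
          · exact Or.inl ((mC c).2 ⟨h1, h2⟩)
          · exact Or.inr ((mO c).2 ⟨h1, h2⟩)
        · rintro (h | h)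
          · exact hCC e he c h
          · exact hCO e he c h
      -- the bound of the rows
      obtain ⟨R, hR⟩ : ∃ R : ℕ, ∀ b, ∑ c, M b c ≤ R :=
        ⟨∑ b, ∑ c, M b c, fun b => Finset.single_le_sum (f := fun b => ∑ c, M b c)
          (fun _ _ => Nat.zero_le _) (Finset.mem_univ b)⟩
      have hR1 : 1 ≤ R := by
        have h1 := Finset.single_le_sum (f := fun c => M b c) (fun _ _ => Nat.zero_le _)
          (Finset.mem_univ b)
        have h2 := hR b
        omega
      -- the restricted matrix
      obtain ⟨MC, hMC⟩ : ∃ MC : A → A → ℕ, MC = fun e c => if e ∈ C ∧ c ∉ C then 0 else M e c :=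
        ⟨_, rfl⟩
      have MCle : ∀ e c, MC e c ≤ M e c := fun e c => by
        rw [hMC]; simp only; split_ifs <;> omega
      have hMC1 : ∀ e, ∃ c, 0 < MC e c := by
        intro e
        by_cases he : e ∈ C
        · exact ⟨e, by rw [hMC]; simp only [he, not_true, and_false, if_false]; exact hCC e he e he⟩
        · obtain ⟨c, hc⟩ := hM e
          exact ⟨c, by rw [hMC]; simp only [he, false_and, if_false]; exact hc⟩
      have hMCR : ∀ b, ∑ c, MC b c ≤ R := fun b =>
        (Finset.sum_le_sum fun c _ => MCle b c).trans (hR b)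
      have hstep : ∀ e ∈ C, ∀ t, len MC (t + 1) e = ∑ c ∈ C, M e c * len MC t c := by
        intro e he t
        show ∑ c, MC e c * len MC t c = _
        rw [← Finset.sum_filter_add_sum_filter_not univ (fun c => c ∈ C)]
        have e1 : ∑ c ∈ univ.filter (fun c => c ∉ C), MC e c * len MC t c = 0 := by
          refine Finset.sum_eq_zero fun c hc => ?_
          rw [Finset.mem_filter] at hc
          rw [hMC]
          simp only [he, hc.2, not_false_eq_true, and_self, if_true, zero_mul]
        have e2 : univ.filter (fun c => c ∈ C) = C := by ext c; simp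
        rw [e1, add_zero, e2]
        refine Finset.sum_congr rfl fun c hc => ?_
        rw [hMC]
        simp only [hc, not_true, and_false, if_false]
      have hcmp : ∀ e ∈ C, ∀ e' ∈ C, ∀ t, len MC t e' ≤ R * len MC t e := by
        intro e he e' he' t
        have h1 : len MC t e' ≤ len MC (t + 1) e := by
          rw [hstep e he]
          have h2 := Finset.single_le_sum (f := fun c => M e c * len MC t c)
            (fun _ _ => Nat.zero_le _) he'
          refine le_trans ?_ h2
          exact Nat.le_mul_of_pos_left _ (hCC e he e' he')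
        exact h1.trans (len_up hMCR t e)
      have hsubm : ∀ s, ∀ e ∈ C, ∀ t, len MC (s + t) e ≤ R * (len MC s e * len MC t b) := by
        intro s
        induction s with
        | zero =>
          intro e he t
          rw [zero_add]
          have := hcmp b hbC e he t
          show _ ≤ R * (1 * _)
          rw [one_mul]
          exact this
        | succ s ih2 =>
          intro e he t
          have e1 : s + 1 + t = s + t + 1 := by ring
          rw [e1, hstep e he, hstep e he, Finset.sum_mul, Finset.mul_sum]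
          refine Finset.sum_le_sum fun c hc => ?_
          calc M e c * len MC (s + t) c ≤ M e c * (R * (len MC s c * len MC t b)) :=
                Nat.mul_le_mul_left _ (ih2 c hc t)
            _ = _ := by ring
      have hsupm : ∀ s, ∀ e ∈ C, ∀ t, len MC s e * len MC t b ≤ R * len MC (s + t) e := by
        intro s
        induction s with
        | zero =>
          intro e he t
          rw [zero_add]
          have := hcmp e he b hbC t
          show 1 * _ ≤ _
          rw [one_mul]
          exact this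
        | succ s ih2 =>
          intro e he t
          have e1 : s + 1 + t = s + t + 1 := by ring
          rw [e1, hstep e he, hstep e he, Finset.sum_mul, Finset.mul_sum]
          refine Finset.sum_le_sum fun c hc => ?_
          calc M e c * len MC s c * len MC t b = M e c * (len MC s c * len MC t b) := by ring
            _ ≤ M e c * (R * len MC (s + t) c) := Nat.mul_le_mul_left _ (ih2 c hc t)
            _ = _ := by ring
      have hRR : (1 : ℝ) ≤ (R : ℝ) := by exact_mod_cast hR1
      have hR0 : (0 : ℝ) < (R : ℝ) := by linarith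
      obtain ⟨lam, hlam, hla⟩ := fekete (a := fun t => (len MC t b : ℝ))
        (fun t => by
          have := len_pos hMC1 t b
          exact_mod_cast this) hRR
        (fun s t => by exact_mod_cast hsubm s b hbC t)
        (fun s t => by exact_mod_cast hsupm s b hbC t)
      have hlam0 : 0 < lam := by linarith
      -- the exits
      obtain ⟨Gn, hGn⟩ : ∃ Gn : ℕ → ℕ, Gn = fun t => ∑ f ∈ Out, len M t f := ⟨_, rfl⟩
      have hsplit : ∀ e ∈ C, ∀ t, len M (t + 1) e =
          ∑ c ∈ C, M e c * len M t c + ∑ f ∈ Out, M e f * len M t f := by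
        intro e he t
        show ∑ c, M e c * len M t c = _
        rw [sum_succs, hsucc e he, Finset.sum_union hdisj]
      have hlow : ∀ t, ∀ e ∈ C, len MC t e + ∑ s ∈ range t, len MC s e * Gn (t - 1 - s) ≤
          len M t e := by
        intro t
        induction t with
        | zero => intro e _; simp [len]
        | succ t ih2 =>
          intro e he
          rw [hsplit e he, Finset.sum_range_succ']
          have h1 : ∑ c ∈ C, M e c * (len MC t c + ∑ s ∈ range t, len MC s c * Gn (t - 1 - s)) ≤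
              ∑ c ∈ C, M e c * len M t c :=
            Finset.sum_le_sum fun c hc => Nat.mul_le_mul_left _ (ih2 c hc)
          have h2 : ∑ c ∈ C, M e c * (len MC t c + ∑ s ∈ range t, len MC s c * Gn (t - 1 - s)) =
              len MC (t + 1) e + ∑ s ∈ range t, len MC (s + 1) e * Gn (t + 1 - 1 - (s + 1)) := by
            simp only [mul_add, Finset.sum_add_distrib]
            rw [← hstep e he]
            congr 1
            simp only [Finset.mul_sum]
            rw [Finset.sum_comm]
            refine Finset.sum_congr rfl fun s hs => ?_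
            rw [Finset.mem_range] at hs
            have e3 : t + 1 - 1 - (s + 1) = t - 1 - s := by omega
            rw [e3, hstep e he, Finset.sum_mul]
            exact Finset.sum_congr rfl fun c _ => by ring
          have h3 : Gn t ≤ ∑ f ∈ Out, M e f * len M t f := by
            rw [hGn]
            refine Finset.sum_le_sum fun f hf => ?_
            exact Nat.le_mul_of_pos_left _ (hCO e he f hf)
          have h4 : len MC 0 e * Gn (t + 1 - 1 - 0) = Gn t := by
            show 1 * Gn (t + 1 - 1 - 0) = Gn t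
            simp
          rw [h4]
          omega
      have hupp : ∀ t, ∀ e ∈ C, len M t e ≤
          len MC t e + R * ∑ s ∈ range t, len MC s e * Gn (t - 1 - s) := by
        intro t
        induction t with
        | zero => intro e _; simp [len]
        | succ t ih2 =>
          intro e he
          rw [hsplit e he, Finset.sum_range_succ']
          have h1 : ∑ c ∈ C, M e c * len M t c ≤ ∑ c ∈ C, M e c *
              (len MC t c + R * ∑ s ∈ range t, len MC s c * Gn (t - 1 - s)) :=
            Finset.sum_le_sum fun c hc => Nat.mul_le_mul_left _ (ih2 c hc)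
          have h2 : ∑ c ∈ C, M e c *
              (len MC t c + R * ∑ s ∈ range t, len MC s c * Gn (t - 1 - s)) =
              len MC (t + 1) e +
                R * ∑ s ∈ range t, len MC (s + 1) e * Gn (t + 1 - 1 - (s + 1)) := by
            simp only [mul_add, Finset.sum_add_distrib]
            rw [← hstep e he]
            congr 1
            simp only [Finset.mul_sum]
            rw [Finset.sum_comm]
            refine Finset.sum_congr rfl fun s hs => ?_
            rw [Finset.mem_range] at hs
            have e3 : t + 1 - 1 - (s + 1) = t - 1 - s := by omega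
            rw [e3, hstep e he, Finset.sum_mul, Finset.mul_sum]
            exact Finset.sum_congr rfl fun c _ => by ring
          have h3 : ∑ f ∈ Out, M e f * len M t f ≤ R * Gn t := by
            rw [hGn]
            simp only
            rw [Finset.mul_sum]
            refine Finset.sum_le_sum fun f hf => Nat.mul_le_mul_right _ ?_
            exact (Finset.single_le_sum (f := fun c => M e c) (fun _ _ => Nat.zero_le _)
              (Finset.mem_univ f)).trans (hR e)
          have h4 : len MC 0 e * Gn (t + 1 - 1 - 0) = Gn t := by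
            show 1 * Gn (t + 1 - 1 - 0) = Gn t
            simp
          rw [h4, mul_add]
          omega
      rcases Out.eq_empty_or_nonempty with hemp | hne
      · -- no exits
        have hG0 : ∀ t, Gn t = 0 := fun t => by rw [hGn, hemp]; simp
        refine ⟨lam, 0, hlam, 1 / R, R, by positivity, hR0, fun t => ?_⟩
        have h1 := hlow t b hbC
        have h2 := hupp t b hbC
        simp only [hG0, mul_zero, Finset.sum_const_zero, add_zero] at h1 h2
        have h3 : len M t b = len MC t b := le_antisymm h2 h1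
        simp only [h3]
        have h4 := hla t
        unfold sc
        rw [pow_zero, one_mul]
        constructor
        · rw [one_div_mul_eq_div]; exact h4.1
        · exact h4.2
      · -- exits
        obtain ⟨β, d, hβ, lo, hi, hlo, hhi, hg⟩ := G_sum Out hne (L := fun f t => (len M t f : ℝ))
          (fun f hf => by
            refine ih f ?_
            have h1 := (mO f).1 hf
            have h2 : succs M f ⊂ succs M b := by
              rw [Finset.ssubset_iff_of_subset (hsub h1.1)]
              exact ⟨b, hmem.2 hbb, fun h => h1.2 (hmem.1 h)⟩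
            have h3 := Finset.card_lt_card h2
            unfold meas at hb ⊢
            rw [if_pos hbb] at hb
            split_ifs <;> omega)
        have hgn : ∀ t, lo * sc β d t ≤ (Gn t : ℝ) ∧ (Gn t : ℝ) ≤ hi * sc β d t := fun t => by
          have := hg t
          rw [hGn]
          push_cast
          exact this
        obtain ⟨b', e', hb', hconv⟩ := G_conv (lam := lam) (β := β) (d := d) hlam hβ
        refine ⟨b', e', hb', ?_⟩
        have hscn : ∀ t, 0 ≤ ∑ s ∈ range t, lam ^ s * sc β d (t - 1 - s) := fun t =>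
          Finset.sum_nonneg fun s _ => mul_nonneg (by positivity) (sc_pos hβ _ _).le
        refine G_congr hconv (a := min 1 lo / R) (b := R * R * max 1 hi)
          (div_pos (lt_min one_pos hlo) hR0) (by positivity) (fun t => ?_) fun t => ?_
        · have h1 : ((len MC t b + ∑ s ∈ range t, len MC s b * Gn (t - 1 - s) : ℕ) : ℝ) ≤
              (len M t b : ℝ) := by exact_mod_cast hlow t b hbC
          push_cast at h1
          refine le_trans ?_ h1
          rw [mul_add, Finset.mul_sum]
          have hm0 : 0 ≤ min 1 lo := (lt_min one_pos hlo).le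
          refine add_le_add ?_ (Finset.sum_le_sum fun s _ => ?_)
          · refine le_trans ?_ (hla t).1
            rw [div_mul_eq_mul_div]
            refine div_le_div_of_nonneg_right ?_ hR0.le
            have := mul_le_mul_of_nonneg_right (min_le_left 1 lo) (pow_pos hlam0 t).le
            linarith
          · have h2 := (hla s).1
            have h3 := (hgn (t - 1 - s)).1
            have h4 := sc_pos hβ d (t - 1 - s)
            calc min 1 lo / R * (lam ^ s * sc β d (t - 1 - s)) =
                  (lam ^ s / R) * (min 1 lo * sc β d (t - 1 - s)) := by ring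
              _ ≤ (len MC s b : ℝ) * (Gn (t - 1 - s) : ℝ) := by
                  refine mul_le_mul h2 ?_ (by positivity) (Nat.cast_nonneg _)
                  exact (mul_le_mul_of_nonneg_right (min_le_right 1 lo) h4.le).trans h3
        · have h1 : (len M t b : ℝ) ≤
              ((len MC t b + R * ∑ s ∈ range t, len MC s b * Gn (t - 1 - s) : ℕ) : ℝ) := by
            exact_mod_cast hupp t b hbC
          push_cast at h1
          refine h1.trans ?_
          rw [mul_add, Finset.mul_sum, Finset.mul_sum]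
          have hm1 : 1 ≤ max 1 hi := le_max_left _ _
          refine add_le_add ?_ (Finset.sum_le_sum fun s _ => ?_)
          · refine (hla t).2.trans (mul_le_mul_of_nonneg_right ?_ (pow_pos hlam0 t).le)
            have : (R : ℝ) ≤ R * R := by nlinarith
            nlinarith
          · have h2 := (hla s).2
            have h3 := (hgn (t - 1 - s)).2
            have h4 := sc_pos hβ d (t - 1 - s)
            calc (R : ℝ) * ((len MC s b : ℝ) * (Gn (t - 1 - s) : ℝ)) ≤
                  R * ((R * lam ^ s) * (max 1 hi * sc β d (t - 1 - s))) := by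
                  refine mul_le_mul_of_nonneg_left ?_ hR0.le
                  refine mul_le_mul h2 ?_ (Nat.cast_nonneg _) (by positivity)
                  exact h3.trans (mul_le_mul_of_nonneg_right (le_max_right 1 hi) h4.le)
              _ = _ := by ring
    · -- transient letters
      have hne : (succs M b).Nonempty := by
        obtain ⟨c, hc⟩ := hM b
        exact ⟨c, hmem.2 hc⟩
      obtain ⟨β, d, hβ, hg⟩ := G_sum (succs M b) hne
        (L := fun c t => (M b c : ℝ) * (len M t c : ℝ)) (fun c hc => by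
          have hc' := hmem.1 hc
          obtain ⟨β, d, h1, h2⟩ := ih c (by
            have h3 := Finset.card_le_card (hsub hc')
            unfold meas at hb ⊢
            rw [if_neg hbb] at hb
            by_cases hcc : 0 < M c c
            · rw [if_pos hcc]; omega
            · rw [if_neg hcc]
              have h4 : succs M c ⊂ succs M b := by
                rw [Finset.ssubset_iff_of_subset (hsub hc')]
                exact ⟨c, hc, fun h => hcc (hmem.1 h)⟩
              have h5 := Finset.card_lt_card h4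
              omega)
          exact ⟨β, d, h1, G_smul h2 (by exact_mod_cast hc')⟩)
      refine ⟨β, d, hβ, G_shift hβ ?_ (by simp [len])⟩
      have e : (fun t => (len M (t + 1) b : ℝ)) =
          fun t => ∑ c ∈ succs M b, (M b c : ℝ) * (len M t c : ℝ) := by
        funext t
        have : len M (t + 1) b = ∑ c ∈ succs M b, M b c * len M t c := sum_succs M b _
        rw [this]
        push_cast
        rfl
      rw [e]
      exact hg

/-! ### powers -/

lemma len_pow (M : A → A → ℕ) (t : ℕ) (b : A) :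
    len M t b = ∑ c, ((Matrix.of M) ^ t) b c := by
  induction t generalizing b with
  | zero =>
    show 1 = _
    rw [pow_zero]
    simp [Matrix.one_apply]
  | succ t ih =>
    show ∑ c, M b c * len M t c = _
    rw [pow_succ']
    simp only [Matrix.mul_apply, Matrix.of_apply]
    rw [Finset.sum_comm]
    refine Finset.sum_congr rfl fun c _ => ?_
    rw [ih, Finset.mul_sum]

/-- the power of the matrix -/
def mp (M : A → A → ℕ) (N : ℕ) : A → A → ℕ := fun b c => ((Matrix.of M) ^ N) b c

lemma len_mp (M : A → A → ℕ) (N q : ℕ) (b : A) : len (mp M N) q b = len M (N * q) b := by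
  rw [len_pow, len_pow, pow_mul]
  rfl

lemma pat_add (M : A → A → ℕ) (m n : ℕ) (b c : A) :
    0 < mp M (m + n) b c ↔ ∃ e, 0 < mp M m b e ∧ 0 < mp M n e c := by
  unfold mp
  rw [pow_add, Matrix.mul_apply, Finset.sum_pos_iff]
  simp only [Finset.mem_univ, true_and]
  refine exists_congr fun e => ?_
  exact CanonicallyOrderedAdd.mul_pos

/-- a power with an idempotent pattern -/
lemma exists_idem (M : A → A → ℕ) : ∃ N : ℕ, 1 ≤ N ∧
    ∀ b c, 0 < mp M N b c ↔ ∃ e, 0 < mp M N b e ∧ 0 < mp M N e c := by
  obtain ⟨pat, hpat⟩ : ∃ pat : ℕ → A → A → Prop, pat = fun n b c => 0 < mp M n b c := ⟨_, rfl⟩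
  have hadd : ∀ m n, pat (m + n) = fun b c => ∃ e, pat m b e ∧ pat n e c := by
    intro m n
    rw [hpat]
    funext b c
    exact propext (pat_add M m n b c)
  have hcong : ∀ i j m, pat i = pat j → pat (i + m) = pat (j + m) := by
    intro i j m h
    rw [hadd, hadd, h]
  obtain ⟨i, p, hp, hper⟩ : ∃ i p : ℕ, 1 ≤ p ∧ pat i = pat (i + p) := by
    obtain ⟨x, y, hxy, he⟩ := Finite.exists_ne_map_eq_of_infinite pat
    rcases lt_or_gt_of_ne hxy with h | h
    · exact ⟨x, y - x, by omega, by rw [he]; congr 1; omega⟩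
    · exact ⟨y, x - y, by omega, by rw [← he]; congr 1; omega⟩
  have h1 : ∀ n, i ≤ n → pat (n + p) = pat n := by
    intro n hn
    have := hcong i (i + p) (n - i) hper
    have e1 : i + (n - i) = n := by omega
    have e2 : i + p + (n - i) = n + p := by omega
    rw [e1, e2] at this
    exact this.symm
  have h2 : ∀ k n, i ≤ n → pat (n + k * p) = pat n := by
    intro k
    induction k with
    | zero => intro n _; simp
    | succ k ih =>
      intro n hn
      have e : n + (k + 1) * p = (n + k * p) + p := by ring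
      rw [e, h1 _ (by omega), ih n hn]
  refine ⟨(i + 1) * p, by nlinarith, fun b c => ?_⟩
  have h3 := h2 (i + 1) ((i + 1) * p) (by nlinarith)
  have h4 := hadd ((i + 1) * p) ((i + 1) * p)
  rw [h3] at h4
  have h5 := congrFun (congrFun h4 b) c
  rw [hpat] at h5
  exact iff_of_eq h5

end mat

theorem jobG : JobG := by
  intro A _ _ M hM b
  obtain ⟨N, hN, hidem⟩ := exists_idem M
  have hpos : ∀ b, ∃ c, 0 < mp M N b c := by
    intro b
    have h1 := len_pos hM N b
    rw [len_pow] at h1
    obtain ⟨c, -, hc⟩ := Finset.sum_pos_iff.1 h1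
    exact ⟨c, hc⟩
  obtain ⟨β', d, hβ', lo, hi, hlo, hhi, hg⟩ := core (mp M N) hpos hidem _ b le_rfl
  simp only [len_mp] at hg
  have hN0 : (0 : ℝ) < N := by exact_mod_cast hN
  have hN1 : (1 : ℝ) ≤ N := by exact_mod_cast hN
  have hβ0 : 0 < β' := by linarith
  obtain ⟨β, hβ⟩ : ∃ β : ℝ, β = β' ^ (1 / (N : ℝ)) := ⟨_, rfl⟩
  have hβN : β ^ N = β' := by
    rw [hβ, ← Real.rpow_natCast, ← Real.rpow_mul hβ0.le, one_div_mul_cancel hN0.ne',
      Real.rpow_one]
  have hβ1 : 1 ≤ β := by rw [hβ]; exact Real.one_le_rpow hβ' (by positivity)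
  have hmono : Monotone fun t => len M t b := monotone_nat_of_le_succ fun t => len_mono hM t b
  refine ⟨β, d, hβ1, lo / (N ^ d * β') / 1, hi * 2 ^ d * β' * 2 ^ d, by positivity, by positivity,
    fun t ht => ?_⟩
  obtain ⟨q, r, hr, hqr⟩ : ∃ q r, r < N ∧ t = N * q + r :=
    ⟨t / N, t % N, Nat.mod_lt _ (by omega), (Nat.div_add_mod t N).symm⟩
  have htR : (1 : ℝ) ≤ t := by exact_mod_cast ht
  have hs := sc_pos hβ' d q
  have hβt : β ^ t = β' ^ q * β ^ r := by rw [hqr, pow_add, pow_mul, hβN]
  have hr1 : 1 ≤ β ^ r := one_le_pow₀ hβ1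
  have hr2 : β ^ r ≤ β' := by rw [← hβN]; exact pow_le_pow_right₀ hβ1 hr.le
  have htq : (t : ℝ) + 1 ≤ N * ((q : ℝ) + 1) := by
    have : t + 1 ≤ N * (q + 1) := by rw [hqr, mul_add]; omega
    exact_mod_cast this
  have hqt : (q : ℝ) + 1 ≤ (t : ℝ) + 1 := by
    have : q ≤ t := by rw [hqr]; nlinarith
    have : (q : ℝ) ≤ t := by exact_mod_cast this
    linarith
  -- the scales
  have s1 : sc β' d q ≤ ((t : ℝ) + 1) ^ d * β ^ t := by
    unfold sc
    rw [hβt]
    refine mul_le_mul (pow_le_pow_left₀ (by positivity) hqt d) ?_ (by positivity) (by positivity)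
    exact le_mul_of_one_le_right (by positivity) hr1
  have s2 : ((t : ℝ) + 1) ^ d * β ^ t ≤ N ^ d * β' * sc β' d q := by
    unfold sc
    rw [hβt]
    have h1 : ((t : ℝ) + 1) ^ d ≤ N ^ d * ((q : ℝ) + 1) ^ d := by
      rw [← mul_pow]
      exact pow_le_pow_left₀ (by positivity) htq d
    calc ((t : ℝ) + 1) ^ d * (β' ^ q * β ^ r) ≤ (N ^ d * ((q : ℝ) + 1) ^ d) * (β' ^ q * β') := by
          refine mul_le_mul h1 ?_ (by positivity) (by positivity)
          exact mul_le_mul_of_nonneg_left hr2 (by positivity)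
      _ = _ := by ring
  have s3 : sc β' d (q + 1) ≤ 2 ^ d * β' * sc β' d q := by
    unfold sc
    have h3 : (((q + 1 : ℕ) : ℝ) + 1) ^ d ≤ 2 ^ d * ((q : ℝ) + 1) ^ d := by
      rw [← mul_pow]
      refine pow_le_pow_left₀ (by positivity) ?_ d
      push_cast
      linarith [Nat.cast_nonneg (α := ℝ) q]
    calc (((q + 1 : ℕ) : ℝ) + 1) ^ d * β' ^ (q + 1) ≤
          2 ^ d * ((q : ℝ) + 1) ^ d * β' ^ (q + 1) :=
            mul_le_mul_of_nonneg_right h3 (by positivity)
      _ = _ := by rw [pow_succ]; ring
  have t1 : (t : ℝ) ^ d ≤ ((t : ℝ) + 1) ^ d := pow_le_pow_left₀ (by positivity) (by linarith) d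
  have t2 : ((t : ℝ) + 1) ^ d ≤ 2 ^ d * (t : ℝ) ^ d := by
    rw [← mul_pow]
    exact pow_le_pow_left₀ (by positivity) (by linarith) d
  have hβt0 : 0 < β ^ t := by
    have : 0 < β := by linarith
    positivity
  constructor
  · have h1 : (len M (N * q) b : ℝ) ≤ (len M t b : ℝ) := by
      exact_mod_cast hmono (show N * q ≤ t by omega)
    refine le_trans ?_ ((hg q).1.trans h1)
    rw [div_one]
    calc lo / (N ^ d * β') * ((t : ℝ) ^ d * β ^ t) ≤
          lo / (N ^ d * β') * (((t : ℝ) + 1) ^ d * β ^ t) := by gcongr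
      _ ≤ lo / (N ^ d * β') * (N ^ d * β' * sc β' d q) :=
          mul_le_mul_of_nonneg_left s2 (by positivity)
      _ = lo * sc β' d q := by field_simp
  · have h1 : (len M t b : ℝ) ≤ (len M (N * (q + 1)) b : ℝ) := by
      exact_mod_cast hmono (show t ≤ N * (q + 1) by rw [mul_add]; omega)
    refine (h1.trans (hg (q + 1)).2).trans ?_
    calc hi * sc β' d (q + 1) ≤ hi * (2 ^ d * β' * sc β' d q) := by gcongr
      _ ≤ hi * (2 ^ d * β' * (((t : ℝ) + 1) ^ d * β ^ t)) := by gcongr
      _ ≤ hi * (2 ^ d * β' * ((2 ^ d * (t : ℝ) ^ d) * β ^ t)) := by gcongr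
      _ = _ := by ring

end

end Pool.Agent.W2helper10.DL
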