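import Mathlib
import Pool.Agent.W2helper68.DL.Stm

/-!
# Job N: counting
-/

set_option autoImplicit false

open Filter

namespace Pool.Agent.W2helper10.DL

open Pool.Agent.W2helper68.DL

lemma ncard_lt {L : ℕ → ℕ} (hL : StrictMono L) (n : ℕ) :
    ∃ N : ℕ, Set.ncard {t : ℕ | L t < n} = N ∧ n ≤ L N ∧ ∀ t, t < N → L t < n := by
  classical
  have hex : ∃ t, n ≤ L t := ⟨n, hL.le_apply⟩
  refine ⟨Nat.find hex, ?_, Nat.find_spec hex, fun t ht => ?_⟩
  · have : {t : ℕ | L t < n} = Set.Iio (Nat.find hex) := by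
      ext t
      simp only [Set.mem_ofPred_eq, Set.mem_Iio]
      constructor
      · intro h
        by_contra hc
        push Not at hc
        have h1 := Nat.find_spec hex
        have h2 := hL.monotone hc
        omega
      · intro h
        have := Nat.find_min hex h
        omega
    rw [this, Set.ncard_eq_toFinset_card']
    simp
  · have := Nat.find_min hex ht
    omega

theorem jobN : JobN := by
  intro L β d hL hβ hG
  obtain ⟨lo, hi, hlo, hhi, hb⟩ := hG
  have hβ0 : 0 < β := by linarith
  obtain ⟨l, hl⟩ : ∃ l, l = Real.log β := ⟨_, rfl⟩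
  have hl0 : 0 < l := by rw [hl]; exact Real.log_pos hβ
  obtain ⟨f, hf⟩ : ∃ f : ℕ → ℝ, f = fun n => |(Set.ncard {t : ℕ | L t < n} : ℝ)
      - (Real.log n / Real.log β - d / Real.log β * Real.log (Real.log n))| := ⟨_, rfl⟩
  obtain ⟨lam, hlam⟩ : ∃ x, x = |Real.log lo| := ⟨_, rfl⟩
  obtain ⟨h, hh⟩ : ∃ x, x = |Real.log hi| := ⟨_, rfl⟩
  have hlam0 : 0 ≤ lam := by rw [hlam]; exact abs_nonneg _
  have hh0 : 0 ≤ h := by rw [hh]; exact abs_nonneg _
  obtain ⟨A, hA⟩ : ∃ A, A = (1 + lam + l) / l := ⟨_, rfl⟩
  obtain ⟨B, hB⟩ : ∃ B, B = h + d + l := ⟨_, rfl⟩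
  have hd0 : (0 : ℝ) ≤ d := Nat.cast_nonneg d
  have hA0 : 0 < A := by rw [hA]; positivity
  have hB0 : 0 < B := by rw [hB]; positivity
  obtain ⟨D, hD⟩ : ∃ D, D = |Real.log A| + |Real.log B| := ⟨_, rfl⟩
  have hD0 : 0 ≤ D := by rw [hD]; positivity
  have hlog2 : 0 < Real.log 2 := Real.log_pos (by norm_num)
  refine ⟨(h + lam + l + d * Real.log 2 + d * D) / l +
    ∑ n ∈ Finset.range (L 1 + 1), f n, fun n hn => ?_⟩
  have hsum : 0 ≤ ∑ n ∈ Finset.range (L 1 + 1), f n :=
    Finset.sum_nonneg fun i _ => by rw [hf]; exact abs_nonneg _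
  have hmain : 0 ≤ (h + lam + l + d * Real.log 2 + d * D) / l := by positivity
  obtain ⟨N, hN, hN1, hN2⟩ := ncard_lt hL n
  rcases Nat.lt_or_ge N 2 with hN3 | hN3
  · have h1 : n ≤ L 1 := hN1.trans (hL.monotone (by omega))
    have h2 := Finset.single_le_sum (f := f) (fun i _ => by rw [hf]; exact abs_nonneg _)
      (Finset.mem_range.2 (show n < L 1 + 1 by omega))
    have h3 : |(Set.ncard {t : ℕ | L t < n} : ℝ)
      - (Real.log n / Real.log β - d / Real.log β * Real.log (Real.log n))| = f n := by rw [hf]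
    rw [h3]
    linarith
  · rw [hN, ← hl]
    obtain ⟨x, hx⟩ : ∃ x, x = Real.log n := ⟨_, rfl⟩
    rw [← hx]
    have hn0 : (0 : ℝ) < n := by
      have : 0 < n := by omega
      exact_mod_cast this
    have hx1 : 1 ≤ x := by
      rw [hx, Real.le_log_iff_exp_le hn0]
      have h1 := Real.exp_one_lt_d9
      have h2 : (3 : ℝ) ≤ n := by exact_mod_cast hn
      linarith
    have hNR : (2 : ℝ) ≤ N := by exact_mod_cast hN3
    have hN1R : ((N - 1 : ℕ) : ℝ) = (N : ℝ) - 1 := by rw [Nat.cast_sub (by omega)]; simp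
    have hlogN : 0 ≤ Real.log ((N : ℝ) - 1) := Real.log_nonneg (by linarith)
    -- the upper bound of n
    have ha : x ≤ h + d * Real.log N + N * l := by
      have h1 := (hb N (by omega)).2
      have h2 : (n : ℝ) ≤ hi * ((N : ℝ) ^ d * β ^ N) := by
        have : (n : ℝ) ≤ (L N : ℝ) := by exact_mod_cast hN1
        exact this.trans h1
      have h3 := Real.log_le_log hn0 h2
      rw [Real.log_mul hhi.ne' (by positivity), Real.log_mul (by positivity) (by positivity),
        Real.log_pow, Real.log_pow, ← hx, ← hl] at h3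
      have h4 := le_abs_self (Real.log hi)
      rw [← hh] at h4
      linarith
    -- the lower bound
    have hbb : -lam + d * Real.log ((N : ℝ) - 1) + (N - 1) * l ≤ x := by
      have h1 := (hb (N - 1) (by omega)).1
      have h2 : lo * (((N - 1 : ℕ) : ℝ) ^ d * β ^ (N - 1)) ≤ (n : ℝ) := by
        have : (L (N - 1) : ℝ) ≤ (n : ℝ) := by exact_mod_cast (hN2 (N - 1) (by omega)).le
        exact h1.trans this
      have hp : (0 : ℝ) < ((N - 1 : ℕ) : ℝ) := by rw [hN1R]; linarith
      have h3 := Real.log_le_log (by positivity) h2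
      rw [Real.log_mul hlo.ne' (by positivity), Real.log_mul (by positivity) (by positivity),
        Real.log_pow, Real.log_pow, ← hx, ← hl, hN1R] at h3
      have h4 := neg_abs_le (Real.log lo)
      rw [← hlam] at h4
      linarith
    have hlogN2 : Real.log N - Real.log 2 ≤ Real.log ((N : ℝ) - 1) := by
      rw [← Real.log_div (by linarith) (by norm_num)]
      exact Real.log_le_log (by linarith) (by linarith)
    -- comparison of log N and log x
    have hNA : (N : ℝ) ≤ A * x := by
      have h1 : 0 ≤ d * Real.log ((N : ℝ) - 1) := mul_nonneg hd0 hlogN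
      have h2 : (N : ℝ) * l ≤ x + lam + l := by linarith
      have h3 : x + lam + l ≤ (1 + lam + l) * x := by nlinarith
      rw [hA, div_mul_eq_mul_div, le_div_iff₀ hl0]
      linarith
    have hxB : x ≤ B * N := by
      have h1 : Real.log N ≤ N := (Real.log_le_sub_one_of_pos (by linarith)).trans (by linarith)
      have h2 := mul_le_mul_of_nonneg_left h1 hd0
      have h3 : h ≤ h * N := le_mul_of_one_le_right hh0 (by linarith)
      rw [hB]
      linarith
    have e1 : Real.log N ≤ Real.log x + D := by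
      have h1 := Real.log_le_log (by linarith) hNA
      rw [Real.log_mul hA0.ne' (by linarith)] at h1
      have h2 := le_abs_self (Real.log A)
      have h3 := abs_nonneg (Real.log B)
      rw [hD]
      linarith
    have e2 : Real.log x ≤ Real.log N + D := by
      have h1 := Real.log_le_log (by linarith) hxB
      rw [Real.log_mul hB0.ne' (by linarith)] at h1
      have h2 := le_abs_self (Real.log B)
      have h3 := abs_nonneg (Real.log A)
      rw [hD]
      linarith
    have key : |(N : ℝ) * l - (x - d * Real.log x)| ≤ h + lam + l + d * Real.log 2 + d * D := by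
      have m1 := mul_le_mul_of_nonneg_left e1 hd0
      have m2 := mul_le_mul_of_nonneg_left e2 hd0
      have m3 := mul_le_mul_of_nonneg_left hlogN2 hd0
      have m4 : 0 ≤ d * D := mul_nonneg hd0 hD0
      have m5 : 0 ≤ d * Real.log 2 := mul_nonneg hd0 hlog2.le
      rw [abs_le]
      constructor <;> nlinarith
    have e3 : (N : ℝ) - (x / l - d / l * Real.log x) = ((N : ℝ) * l - (x - d * Real.log x)) / l := by
      field_simp
    rw [e3, abs_div, abs_of_pos hl0]
    have := div_le_div_of_nonneg_right key hl0.le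
    linarith

end Pool.Agent.W2helper10.DL
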